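import Pool.Agent.Y473.NI.Lower

/-!
# The second polynomial numerical indices of `C[0,1]` and `L¹[0,1]`

Both questions have a negative answer: `n^(2)(C[0,1]) = 1/2` and `n^(2)(L¹[0,1]) = 1/2` over the
reals, and `n^(2)(L¹[0,1]) ≤ 1/2` over the complex numbers.
-/

set_option autoImplicit false

namespace Pool.Agent.Results.MP_6cf06e_an.BothIndices

open MeasureTheory

variable {𝕜 X : Type} [RCLike 𝕜] [NormedAddCommGroup X] [NormedSpace 𝕜 X]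

/-- The norm `‖P‖ = sup_{‖x‖ = 1} ‖P x‖` of the `k`-homogeneous polynomial
`P x = A (x, …, x)`. -/
noncomputable def polyNorm {k : ℕ} (A : ContinuousMultilinearMap 𝕜 (fun _ : Fin k => X) X) : ℝ :=
  sSup {r : ℝ | ∃ x : X, ‖x‖ = 1 ∧ r = ‖A (fun _ => x)‖}

/-- The numerical radius `v(P) = sup {|φ(P x)| : ‖x‖ = ‖φ‖ = φ(x) = 1}` of the `k`-homogeneous
polynomial `P x = A (x, …, x)`. -/
noncomputable def numRadius {k : ℕ} (A : ContinuousMultilinearMap 𝕜 (fun _ : Fin k => X) X) : ℝ :=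
  sSup {r : ℝ | ∃ (x : X) (φ : X →L[𝕜] 𝕜), ‖x‖ = 1 ∧ ‖φ‖ = 1 ∧ φ x = 1 ∧ r = ‖φ (A (fun _ => x))‖}

variable (𝕜 X) in
/-- The `k`-th polynomial numerical index `n^(k)(X) = inf {v(P) : ‖P‖ = 1}` of the space `X`. -/
noncomputable def polyIndex (k : ℕ) : ℝ :=
  sInf {r : ℝ | ∃ A : ContinuousMultilinearMap 𝕜 (fun _ : Fin k => X) X,
    polyNorm A = 1 ∧ r = numRadius A}

open Pool.Agent.Y473 in
lemma CK_eq (K : Type) [TopologicalSpace K] [CompactSpace K] [T2Space K] [Nontrivial K] :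
    polyIndex ℝ C(K, ℝ) 2 = 1 / 2 := by
  apply le_antisymm (NI.index_CK_le (K := K))
  obtain ⟨s, t, hst⟩ := exists_pair_ne K
  apply le_csInf
  · exact ⟨_, NI.ofBilin (NI.bCK s), NI.bCK_polyNorm hst, rfl⟩
  · rintro r ⟨A, h1, rfl⟩
    have : Nonempty K := ⟨s⟩
    exact NI.half_le_numRadius A h1

lemma meas_left : (volume.restrict (Set.Icc (0 : ℝ) 1)) (Set.Iio (1 / 2)) = ENNReal.ofReal (1 / 2) := by
  rw [Measure.restrict_apply measurableSet_Iio]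
  have : Set.Iio (1 / 2 : ℝ) ∩ Set.Icc 0 1 = Set.Ico 0 (1 / 2) := by
    ext t
    simp only [Set.mem_inter_iff, Set.mem_Iio, Set.mem_Icc, Set.mem_Ico]
    constructor
    · rintro ⟨h1, h2, h3⟩; exact ⟨h2, h1⟩
    · rintro ⟨h1, h2⟩; exact ⟨h2, h1, by linarith⟩
  rw [this, Real.volume_Ico]
  norm_num

lemma meas_right : (volume.restrict (Set.Icc (0 : ℝ) 1)) (Set.Ioi (1 / 2)) = ENNReal.ofReal (1 / 2) := by
  rw [Measure.restrict_apply measurableSet_Ioi]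
  have : Set.Ioi (1 / 2 : ℝ) ∩ Set.Icc 0 1 = Set.Ioc (1 / 2) 1 := by
    ext t
    simp only [Set.mem_inter_iff, Set.mem_Ioi, Set.mem_Icc, Set.mem_Ioc]
    constructor
    · rintro ⟨h1, h2, h3⟩; exact ⟨h1, h3⟩
    · rintro ⟨h1, h2⟩; exact ⟨h1, by linarith, h2⟩
  rw [this, Real.volume_Ioc]
  norm_num

open Pool.Agent.Y473 in
lemma L1_le (𝕜 : Type) [RCLike 𝕜] :
    polyIndex 𝕜 (Lp 𝕜 1 (volume.restrict (Set.Icc (0 : ℝ) 1))) 2 ≤ 1 / 2 := by
  have hd : Disjoint (Set.Iio (1 / 2 : ℝ)) (Set.Ioi (1 / 2)) := by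
    rw [Set.disjoint_left]
    intro t h1 h2
    exact lt_asymm (Set.mem_Iio.1 h1) (Set.mem_Ioi.1 h2)
  refine NI.index_L1_le (𝕜 := 𝕜) (μ := volume.restrict (Set.Icc (0 : ℝ) 1))
    (s := Set.Iio (1 / 2)) (u := Set.Ioi (1 / 2)) measurableSet_Iio measurableSet_Ioi hd ?_ ?_ ?_ ?_
  · rw [meas_left]; simp
  · rw [meas_left]; simp
  · rw [meas_right]; simp
  · rw [meas_right]; simp

/-- For every compact Hausdorff space `K` with at least two points the real space `C(K)` has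
`n^(2)(C(K)) = 1/2`, in particular `n^(2)(C[0,1]) = 1/2`. The real space `L¹[0,1]` has
`n^(2)(L¹[0,1]) = 1/2` and the complex space `L¹[0,1]` has `n^(2)(L¹[0,1]) ≤ 1/2`. -/
theorem result :
    (∀ (K : Type) [TopologicalSpace K] [CompactSpace K] [T2Space K] [Nontrivial K],
      polyIndex ℝ C(K, ℝ) 2 = 1 / 2) ∧
    polyIndex ℝ C(Set.Icc (0 : ℝ) 1, ℝ) 2 = 1 / 2 ∧
    polyIndex ℝ (Lp ℝ 1 (volume.restrict (Set.Icc (0 : ℝ) 1))) 2 = 1 / 2 ∧
    polyIndex ℂ (Lp ℂ 1 (volume.restrict (Set.Icc (0 : ℝ) 1))) 2 ≤ 1 / 2 := by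
  refine ⟨fun K _ _ _ _ => CK_eq K, CK_eq _, le_antisymm (L1_le ℝ) ?_, L1_le ℂ⟩
  apply le_csInf
  · have hd : Disjoint (Set.Iio (1 / 2 : ℝ)) (Set.Ioi (1 / 2)) := by
      rw [Set.disjoint_left]
      intro t h1 h2
      exact lt_asymm (Set.mem_Iio.1 h1) (Set.mem_Ioi.1 h2)
    obtain ⟨A, hA⟩ := Pool.Agent.Y473.NI.exists_norm_one (𝕜 := ℝ)
      (μ := volume.restrict (Set.Icc (0 : ℝ) 1))
      (s := Set.Iio (1 / 2)) (u := Set.Ioi (1 / 2)) measurableSet_Iio measurableSet_Ioi hd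
      (by rw [meas_left]; simp) (by rw [meas_left]; simp) (by rw [meas_right]; simp)
      (by rw [meas_right]; simp)
    exact ⟨_, A, hA, rfl⟩
  · rintro r ⟨A, h1, rfl⟩
    exact Pool.Agent.Y473.NI.half_le_numRadius_L1 A h1

end Pool.Agent.Results.MP_6cf06e_an.BothIndices
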